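import Pool.Agent.W259.GS.Comb

/-!
# Gyárfás–Sumner for graphs whose large half-graphs contain a rich edge

All graphs are finite.  `w` is a probability weight on the vertices of `G`.  A clique is *maximal*
if no vertex is adjacent to all of its members.  For a maximal clique `Q` and `v ∈ Q` the *exchange
weight* of `v` in `Q` is the total weight of the vertices which are adjacent to all members of `Q`
other than `v`.  An edge `u v` is `ε`-*rich* if for some maximal clique `Q` containing `u` and `v`
one of `u`, `v` has exchange weight at least `ε` in `Q`.  (In a triangle-free graph this means that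
the neighbourhood of `u` or of `v` has weight at least `ε`.)

* First part: for every bipartite `F`, all `k` and `ε > 0` there is `C` such that in every graph
  without induced `F` and without clique of size `k + 1`, for every probability weight, the rich
  edges form a graph of chromatic number at most `C`.
* Second part: for every forest `F`, all `k`, `n` and `ε > 0` there is `C` such that `χ(G) ≤ C` for
  every graph `G` without induced `F` and without clique of size `k + 1` which has a probability
  weight such that every half-graph of order `n` in `G` contains a rich edge of `G`.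
-/

namespace Pool.Agent.Results.MP_763321_co.RichEdges

/-- `Q` is a clique and no vertex is adjacent to all members of `Q`. -/
def MaxClique {V : Type} (G : SimpleGraph V) (Q : Finset V) : Prop :=
  G.IsClique (Q : Set V) ∧ ∀ z, ∃ q ∈ Q, ¬ G.Adj q z

open Classical in
/-- The total weight of the vertices which are adjacent to all members of `Q` other than `v`. -/
noncomputable def exchangeWeight {V : Type} [Fintype V] (G : SimpleGraph V) (w : V → ℝ)
    (Q : Finset V) (v : V) : ℝ :=
  ∑ z, if (∀ q ∈ Q, q ≠ v → G.Adj q z) then w z else 0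

/-- The edge `u v` is `ε`-rich. -/
def Rich {V : Type} [Fintype V] (G : SimpleGraph V) (w : V → ℝ) (ε : ℝ) (u v : V) : Prop :=
  G.Adj u v ∧ ∃ Q : Finset V, MaxClique G Q ∧ u ∈ Q ∧ v ∈ Q ∧
    (ε ≤ exchangeWeight G w Q u ∨ ε ≤ exchangeWeight G w Q v)

/-- `w` is a probability weight. -/
def IsProb {V : Type} [Fintype V] (w : V → ℝ) : Prop := (∀ v, 0 ≤ w v) ∧ ∑ v, w v = 1

/-- `a`, `b` form a half-graph: `a i` is adjacent to `b j` if and only if `i ≤ j`. -/
def IsHalfGraph {V : Type} (G : SimpleGraph V) {n : ℕ} (a b : Fin n → V) : Prop :=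
  ∀ i j, G.Adj (a i) (b j) ↔ i ≤ j

theorem result :
    (∀ (m : ℕ) (F : SimpleGraph (Fin m)), F.IsBipartite → ∀ (k : ℕ) (ε : ℝ), 0 < ε →
      ∃ C : ℕ, ∀ (V : Type) [Fintype V] (G : SimpleGraph V) (w : V → ℝ), IsProb w →
        G.CliqueFree (k + 1) → ¬ F.IsIndContained G →
        ∃ c : V → Fin C, ∀ u v, Rich G w ε u v → c u ≠ c v) ∧
    (∀ (m : ℕ) (F : SimpleGraph (Fin m)), F.IsAcyclic → ∀ (k n : ℕ) (ε : ℝ), 0 < ε →
      ∃ C : ℕ, ∀ (V : Type) [Fintype V] (G : SimpleGraph V) (w : V → ℝ), IsProb w →
        G.CliqueFree (k + 1) → ¬ F.IsIndContained G →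
        (∀ a b : Fin n → V, IsHalfGraph G a b → ∃ u v, (u ∈ Set.range a ∨ u ∈ Set.range b) ∧
          (v ∈ Set.range a ∨ v ∈ Set.range b) ∧ Rich G w ε u v) →
        G.Colorable C) := by
  refine ⟨?_, ?_⟩
  · intro m F hF k ε hε
    obtain ⟨C, hC⟩ := Pool.Agent.W259.GS.main F hF k ε hε
    refine ⟨C, ?_⟩
    intro V _ G w hw hfree hind
    obtain ⟨c, hc⟩ := hC V G w hw.1 hw.2 hfree ⟨fun f => hind ⟨f⟩⟩
    refine ⟨c, ?_⟩
    rintro u v ⟨huv, Q, hQ, hu, hv, h⟩ huc
    obtain ⟨h2, h3⟩ := hc u v huv huc Q hQ.1 hQ.2 hu hv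
    have h2' : exchangeWeight G w Q u < ε := h2
    have h3' : exchangeWeight G w Q v < ε := h3
    rcases h with h | h <;> linarith
  · intro m F hF k n ε hε
    obtain ⟨C, hC⟩ := Pool.Agent.W259.GS.comb F hF k n ε hε
    refine ⟨C, ?_⟩
    intro V _ G w hw hfree hind hhalf
    refine hC V G w hw.1 hw.2 hfree ⟨fun f => hind ⟨f⟩⟩ ?_
    intro a b hab
    obtain ⟨u, v, hu, hv, huv, Q, hQ, huQ, hvQ, h⟩ := hhalf a b hab
    rcases h with h | h
    · exact ⟨u, v, hu, hv, huv, Q, hQ.1, hQ.2, huQ, hvQ, h⟩
    · exact ⟨v, u, hv, hu, huv.symm, Q, hQ.1, hQ.2, hvQ, huQ, h⟩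

end Pool.Agent.Results.MP_763321_co.RichEdges
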